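import Pool.Agent.H37.IS.Stm2

/-!
Part HIN of the crew IS (MP_24a1b5_co).
-/

set_option autoImplicit false

namespace H37.IS

theorem HIN_proved (h1 : S_SLF) (h2 : S_HBD) : S_HIN := by
  intro ι _ F N c a s i0 hF k p hH hk
  obtain ⟨hp, hN, hc, hpc, hall⟩ := hH
  by_cases hA : 2 * k + c + 3 * p ≤ N + 2
  · exact h1 ι F N c a s i0 hF k p (by omega) hN hA
  · have hB := h2 ι F N c a s i0 hF k p ⟨hp, hN, hc, hpc, hall⟩ (by omega) (by omega)
    have e1 : sumch F N a s k = N.choose k + ∑ i ∈ F.erase i0, ch (N - a i) k (s i) := by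
      unfold sumch
      rw [← Finset.add_sum_erase F _ hF.h0]
      congr 1
      unfold ch
      rw [hF.ha0, hF.hs0]
      simp
    have e2 : N.choose (k + 1) ≤ sumch F N a s (k + 1) := by
      unfold sumch
      rw [← Finset.add_sum_erase F _ hF.h0]
      have : ch (N - a i0) (k + 1) (s i0) = N.choose (k + 1) := by
        unfold ch
        rw [hF.ha0, hF.hs0]
        simp
      rw [this]
      exact Nat.le_add_right _ _
    rw [e1]
    refine le_trans ?_ e2
    set B := ∑ i ∈ F.erase i0, ch (N - a i) k (s i) with hBdef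
    have h3 := Nat.choose_succ_right_eq N k
    have h4 : k + 2 ≤ N - k := by omega
    have h5 : N.choose k * (k + 2) ≤ N.choose k * (N - k) := Nat.mul_le_mul_left _ h4
    have h6 : (k + 1) * B ≤ 2 * (N + 1) * B := Nat.mul_le_mul_right _ (by omega)
    have h7 : (N.choose k + B) * (k + 1) ≤ N.choose (k + 1) * (k + 1) := by
      rw [h3]
      calc (N.choose k + B) * (k + 1) = N.choose k * (k + 1) + (k + 1) * B := by ring
        _ ≤ N.choose k * (k + 1) + N.choose k := by omega
        _ = N.choose k * (k + 2) := by ring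
        _ ≤ _ := h5
    exact Nat.le_of_mul_le_mul_right h7 (by omega)

end H37.IS
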