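import Pool.Agent.H37.IS.Stm3

/-!
Part RHL of the crew IS (MP_24a1b5_co).
-/

set_option autoImplicit false

namespace H37.IS

lemma rhl_card {H : Type} [Fintype H] [DecidableEq H] {J : SimpleGraph H} {d : H → ℕ} {N K k : ℕ}
    (hW : Win J d N K k) (A : Finset H) : 100 * A.card ≤ N := by
  have h1 : A.card ≤ Fintype.card H := Finset.card_le_univ A
  have h2 : 100 * Fintype.card H ≤ ∑ v, d v := by
    calc 100 * Fintype.card H = ∑ _v : H, 100 := by
          rw [Finset.sum_const, Finset.card_univ, smul_eq_mul, mul_comm]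
      _ ≤ ∑ v, d v := Finset.sum_le_sum fun v _ => hW.hK.trans (hW.hd v)
  rw [hW.hN]
  omega

lemma rhl_dS {H : Type} [Fintype H] [DecidableEq H] {J : SimpleGraph H} {d : H → ℕ} {N K k : ℕ}
    (hW : Win J d N K k) (A : Finset H) : dS d A ≤ N := by
  rw [hW.hN]
  exact Finset.sum_le_univ_sum_of_nonneg fun _ => Nat.zero_le _

theorem RHL_proved : S_RHL := by
  intro H _ _ _ J d N K k hW A v hv hA
  classical
  have hN0 : (0 : ℝ) < N := by
    have := hW.hN0
    exact_mod_cast (by omega : 0 < N)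
  have hc := rhl_card hW (insert v A)
  have hcA : (insert v A).card = A.card + 1 := Finset.card_insert_of_notMem hv
  have hdS : dS d (insert v A) = d v + dS d A := by
    unfold dS
    rw [Finset.sum_insert hv]
  have hdN := rhl_dS hW (insert v A)
  have hOm : k - (insert v A).card ≤ N - dS d (insert v A) := by
    unfold Om at hA
    simp only [Finset.mem_filter] at hA
    exact hA.2.2
  have hlo := hW.hlo
  have hhi := hW.hhi
  have hd := hW.hK.trans (hW.hd v)
  rw [hcA] at hc hOm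
  rw [hdS] at hOm hdN
  -- real inequalities
  have hk1 : A.card + 1 ≤ k := by omega
  have e1 : (k : ℝ) - (A.card + 1) ≤ (N : ℝ) - (d v + dS d A) := by
    have : k + (d v + dS d A) ≤ N + (A.card + 1) := by omega
    have h2 : ((k + (d v + dS d A) : ℕ) : ℝ) ≤ ((N + (A.card + 1) : ℕ) : ℝ) := by exact_mod_cast this
    push_cast at h2
    linarith
  have e2 : (100 : ℝ) * (A.card + 1) ≤ N := by exact_mod_cast hc
  have e3 : (97 : ℝ) * N ≤ 200 * k := by exact_mod_cast hlo
  have e4 : (100 : ℝ) ≤ d v := by exact_mod_cast hd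
  have e5 : (0 : ℝ) ≤ dS d A := Nat.cast_nonneg _
  have e6 : (0 : ℝ) ≤ A.card := Nat.cast_nonneg _
  unfold rho
  rw [hcA, hdS]
  push_cast
  obtain ⟨j, hj⟩ : ∃ j : ℝ, j = (k : ℝ) - A.card := ⟨_, rfl⟩
  obtain ⟨m, hm⟩ : ∃ m : ℝ, m = (N : ℝ) - dS d A - k + A.card := ⟨_, rfl⟩
  have hj1 : (N : ℝ) ≤ 3 * j := by rw [hj]; linarith
  have hj0 : 0 < j := by linarith
  have hm1 : (d v : ℝ) - 1 ≤ m := by rw [hm]; linarith
  have hm2 : m ≤ 2 * (j + 1) := by rw [hm, hj]; linarith
  have r1 : ((N : ℝ) - ((d v : ℝ) + dS d A) - k + (A.card + 1)) / ((k : ℝ) - (A.card + 1) + 1) =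
      (m - d v + 1) / j := by
    rw [hm, hj]
    congr 1 <;> ring
  have r2 : ((N : ℝ) - dS d A - k + A.card) / ((k : ℝ) - A.card + 1) = m / (j + 1) := by
    rw [hm, hj]
  rw [r1, r2]
  have r3 : (m - d v + 1) / j - m / (j + 1) = m / (j * (j + 1)) - ((d v : ℝ) - 1) / j := by
    field_simp
    ring
  rw [r3]
  have b1 : 0 ≤ m / (j * (j + 1)) := div_nonneg (by linarith) (by positivity)
  have b2 : m / (j * (j + 1)) ≤ 2 / j := by
    rw [div_le_div_iff₀ (by positivity) hj0]
    nlinarith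
  have b3 : 0 ≤ ((d v : ℝ) - 1) / j := div_nonneg (by linarith) hj0.le
  have b4 : 2 / j ≤ ((d v : ℝ) + 1) / j := div_le_div_of_nonneg_right (by linarith) hj0.le
  have b5 : ((d v : ℝ) - 1) / j ≤ ((d v : ℝ) + 1) / j :=
    div_le_div_of_nonneg_right (by linarith) hj0.le
  have b6 : ((d v : ℝ) + 1) / j ≤ 3 / N * ((d v : ℝ) + 1) := by
    rw [div_mul_eq_mul_div, div_le_div_iff₀ hj0 hN0]
    nlinarith
  rw [abs_le]
  constructor <;> linarith

end H37.IS
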