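import Pool.Agent.H37.IS.Stm3

/-!
Part STP of the crew IS (MP_24a1b5_co).
-/

set_option autoImplicit false

namespace H37.IS

lemma stp_num (n : ℕ) : (((100 + n : ℕ) : ℝ) + 1) ^ 2 * (3 / 5 : ℝ) ^ (100 + n - 1) ≤
    ((100 + n : ℕ) : ℝ) / 1000 := by
  induction n with
  | zero => norm_num
  | succ n ih =>
    have e1 : 100 + (n + 1) - 1 = (100 + n - 1) + 1 := by omega
    rw [e1, pow_succ]
    push_cast at ih ⊢
    have hn : (0 : ℝ) ≤ n := Nat.cast_nonneg n
    have hp : (0 : ℝ) ≤ (3 / 5 : ℝ) ^ (100 + n - 1) := by positivity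
    have h2 : ((100 : ℝ) + (n + 1) + 1) ^ 2 * (3 / 5) ≤ (100 + n + 1) ^ 2 := by nlinarith
    calc ((100 : ℝ) + (n + 1) + 1) ^ 2 * ((3 / 5 : ℝ) ^ (100 + n - 1) * (3 / 5))
        = (((100 : ℝ) + (n + 1) + 1) ^ 2 * (3 / 5)) * (3 / 5 : ℝ) ^ (100 + n - 1) := by ring
      _ ≤ (100 + n + 1) ^ 2 * (3 / 5 : ℝ) ^ (100 + n - 1) := mul_le_mul_of_nonneg_right h2 hp
      _ ≤ (100 + n) / 1000 := ih
      _ ≤ (100 + (n + 1)) / 1000 := by linarith

theorem STP_proved (hDOB : S_DOB) (hDOH : S_DOH) (hRHL : S_RHL) (hSUM : S_SUM) (hRLO : S_RLO) :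
    S_STP := by
  intro H _ _ _ J d N K k hW hle
  obtain ⟨hD, hQ⟩ := hDOH H J d N K k hW
  have hL := hRHL H J d N K k hW
  obtain ⟨s1, s2, s3⟩ := hSUM H J d N K k hW
  have hr := hRLO H J d N K k hW
  have hN0 : (2000 : ℝ) ≤ N := by exact_mod_cast hW.hN0
  have hNp : (0 : ℝ) < N := by linarith
  have hvar := hDOB H (Om J d N k) (wt d N k) (pr J d N k) _ hD (rho d N k) (3 / N)
    (fun v => (3 / 5 : ℝ) ^ (d v - 1)) (by positivity) hL hQ (fun v => by positivity)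
  have hWpos : 0 < ∑ A ∈ Om J d N k, wt d N k A :=
    Finset.sum_pos (fun A hA => hD.wpos A hA) ⟨∅, hD.ne⟩
  have hsum : (∑ v, ((d v : ℝ) + 1) ^ 2 * (3 / 5 : ℝ) ^ (d v - 1)) ≤ (N : ℝ) / 1000 := by
    calc ∑ v, ((d v : ℝ) + 1) ^ 2 * (3 / 5 : ℝ) ^ (d v - 1) ≤ ∑ v, (d v : ℝ) / 1000 := by
          refine Finset.sum_le_sum fun v _ => ?_
          obtain ⟨n, hn⟩ := Nat.exists_eq_add_of_le (hW.hK.trans (hW.hd v))
          rw [hn]
          exact stp_num n
      _ = (N : ℝ) / 1000 := by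
          rw [← Finset.sum_div]
          congr 1
          rw [hW.hN]
          push_cast
          rfl
  set W := ∑ A ∈ Om J d N k, wt d N k A with hWd
  set R := ∑ A ∈ Om J d N k, wt d N k A * rho d N k A with hRd
  set V := ∑ A ∈ Om J d N k, wt d N k A * rho d N k A ^ 2 with hVd
  have hRW : R ≤ W := by
    have : (FF J d N (k + 1) : ℝ) ≤ (FF J d N k : ℝ) := by exact_mod_cast hle
    rw [s1, s2] at this
    exact this
  have hv2 : W * V - R ^ 2 ≤ W ^ 2 / (50 * N) := by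
    refine hvar.trans ?_
    calc 2 * (3 / (N : ℝ)) ^ 2 * (∑ v, ((d v : ℝ) + 1) ^ 2 * (3 / 5 : ℝ) ^ (d v - 1)) * W ^ 2
        ≤ 2 * (3 / (N : ℝ)) ^ 2 * (N / 1000) * W ^ 2 := by
          gcongr
      _ = (18 / 1000) * (W ^ 2 / N) := by
          field_simp
          ring
      _ ≤ (1 / 50) * (W ^ 2 / N) := by
          have : 0 ≤ W ^ 2 / (N : ℝ) := by positivity
          nlinarith
      _ = W ^ 2 / (50 * N) := by
          field_simp
  have hfin : (1 - 3 / (N : ℝ)) * V ≤ R := by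
    have hV0 : W * V ≤ R ^ 2 + W ^ 2 / (50 * N) := by linarith
    have h3N : 3 / (N : ℝ) ≤ 1 := by
      rw [div_le_one hNp]
      linarith
    have h1 : W * ((1 - 3 / (N : ℝ)) * V) ≤ W * R := by
      calc W * ((1 - 3 / (N : ℝ)) * V) = (1 - 3 / (N : ℝ)) * (W * V) := by ring
        _ ≤ (1 - 3 / (N : ℝ)) * (R ^ 2 + W ^ 2 / (50 * N)) :=
            mul_le_mul_of_nonneg_left hV0 (by linarith)
        _ ≤ (1 - 3 / (N : ℝ)) * (R * W + W ^ 2 / (50 * N)) := by
            refine mul_le_mul_of_nonneg_left ?_ (by linarith)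
            have hR0 : 0 ≤ R := by linarith
            nlinarith
        _ ≤ W * R := by
            have h2 : W ^ 2 / (50 * (N : ℝ)) ≤ 3 / (N : ℝ) * (R * W) := by
              rw [div_mul_eq_mul_div, div_le_div_iff₀ (by positivity) hNp]
              have : W ^ 2 ≤ 2 * (R * W) := by nlinarith
              have h0 : 0 ≤ R * W := by nlinarith
              nlinarith
            have h5 : 0 ≤ 3 / (N : ℝ) * (W ^ 2 / (50 * N)) := by positivity
            nlinarith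
    exact le_of_mul_le_mul_left h1 hWpos
  have hgoal : (FF J d N (k + 2) : ℝ) ≤ (FF J d N (k + 1) : ℝ) := by
    rw [s2]
    exact s3.trans hfin
  exact_mod_cast hgoal

end H37.IS
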